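import Pool.Agent.Q297.WT.Stm

/-!
# Project WT (helper297), job SEL1: one trial of the selection
-/

set_option autoImplicit false
set_option linter.unusedSectionVars false
set_option linter.deprecated false

namespace Pool.Agent.Q149.WT

open MeasureTheory ProbabilityTheory Set Filter Topology Finset
open scoped ENNReal NNReal unitInterval
open Q297.WT

theorem sum_layers (y : ℝ≥0∞) (n : ℕ) : ∑ i ∈ Finset.range n, min (y - i) 1 = min y n := by
  induction n with
  | zero => simp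
  | succ n ih =>
    rw [Finset.sum_range_succ, ih]
    rcases le_or_gt y n with h | h
    · rw [min_eq_left h, tsub_eq_zero_of_le h, min_eq_left (zero_le_one), add_zero, min_eq_left]
      refine h.trans ?_
      rw [Nat.cast_add]
      exact le_self_add
    · rw [min_eq_right h.le, ← min_add_add_left, add_tsub_cancel_of_le h.le, Nat.cast_add,
        Nat.cast_one]

theorem tsum_layers (y : ℝ≥0∞) : ∑' i : ℕ, min (y - i) 1 = y := by
  rw [ENNReal.tsum_eq_iSup_nat]
  simp_rw [sum_layers]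
  rw [← inf_iSup_eq (α := ℝ≥0∞) y (fun n : ℕ => (n : ℝ≥0∞)), ENNReal.iSup_natCast]
  exact min_eq_left le_top

section
variable {E : Type} [MeasurableSpace E] {ρ : Measure E} [IsProbabilityMeasure ρ] {g : E → ℝ≥0∞}

theorem tsum_sig (g : E → ℝ≥0∞) (e : E) : ∑' i : ℕ, sig g i e = 3 * g e := tsum_layers (3 * g e)

theorem meas_sig (hg : Measurable g) (i : ℕ) : Measurable (sig g i) := by
  unfold sig
  exact (((measurable_const.mul hg).sub_const _).min measurable_const)

theorem sig_le_one (g : E → ℝ≥0∞) (i : ℕ) (e : E) : sig g i e ≤ 1 := min_le_right _ _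

/-- the mass of a layer -/
noncomputable def bb (ρ : Measure E) (g : E → ℝ≥0∞) (i : ℕ) : ℝ≥0∞ := ∫⁻ e, sig g i e ∂ρ

theorem tsum_bb (hg : Measurable g) (h1 : ∫⁻ e, g e ∂ρ = 1) : ∑' i : ℕ, bb ρ g i = 3 := by
  unfold bb
  rw [← lintegral_tsum fun i => (meas_sig hg i).aemeasurable]
  simp_rw [tsum_sig]
  rw [lintegral_const_mul _ hg, h1, mul_one]

/-- `1 + b_0 + ... + b_(n-1)` -/
noncomputable def DD (ρ : Measure E) (g : E → ℝ≥0∞) (n : ℕ) : ℝ≥0∞ := 1 + ∑ j ∈ Finset.range n, bb ρ g j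

theorem DD_succ (n : ℕ) : DD ρ g (n + 1) = DD ρ g n + bb ρ g n := by
  unfold DD
  rw [Finset.sum_range_succ, add_assoc]

theorem one_le_DD (n : ℕ) : 1 ≤ DD ρ g n := le_self_add

theorem DD_ne_zero (n : ℕ) : DD ρ g n ≠ 0 := fun h => by
  have := one_le_DD (ρ := ρ) (g := g) n
  rw [h] at this
  exact absurd this (by simp)

theorem DD_le (hg : Measurable g) (h1 : ∫⁻ e, g e ∂ρ = 1) (n : ℕ) : DD ρ g n ≤ 4 := by
  unfold DD
  have h2 : ∑ j ∈ Finset.range n, bb ρ g j ≤ 3 := by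
    rw [← tsum_bb hg h1]
    exact ENNReal.sum_le_tsum _
  calc 1 + ∑ j ∈ Finset.range n, bb ρ g j ≤ 1 + 3 := by gcongr
    _ = 4 := by norm_num

theorem DD_ne_top (hg : Measurable g) (h1 : ∫⁻ e, g e ∂ρ = 1) (n : ℕ) : DD ρ g n ≠ ⊤ :=
  ne_top_of_le_ne_top (by simp) (DD_le hg h1 n)

theorem tendsto_DD (hg : Measurable g) (h1 : ∫⁻ e, g e ∂ρ = 1) :
    Tendsto (DD ρ g) atTop (𝓝 4) := by
  have h2 := ENNReal.tendsto_nat_tsum (bb ρ g)
  rw [tsum_bb hg h1] at h2
  have h3 : Tendsto (fun n => 1 + ∑ j ∈ Finset.range n, bb ρ g j) atTop (𝓝 (1 + 3)) :=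
    h2.const_add 1
  have h4 : (1 : ℝ≥0∞) + 3 = 4 := by norm_num
  rw [h4] at h3
  exact h3

theorem vol_le {c : ℝ≥0∞} (hc : c ≤ 1) :
    (volume : Measure I) {v : I | ENNReal.ofReal (v : ℝ) ≤ c} = c := by
  have hct : c ≠ ⊤ := ne_top_of_le_ne_top ENNReal.one_ne_top hc
  have hc1 : c.toReal ≤ 1 := by
    have := ENNReal.toReal_mono ENNReal.one_ne_top hc
    rwa [ENNReal.toReal_one] at this
  have h1 : {v : I | ENNReal.ofReal (v : ℝ) ≤ c} =
      Set.Iic (⟨c.toReal, ENNReal.toReal_nonneg, hc1⟩ : I) := by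
    ext v
    rw [Set.mem_setOf_eq, Set.mem_Iic, ENNReal.ofReal_le_iff_le_toReal hct]
    exact Iff.rfl
  rw [h1, unitInterval.volume_Iic]
  exact ENNReal.ofReal_toReal hct

/-- acceptance at index `i` -/
def Acc (ρ : Measure E) (g : E → ℝ≥0∞) (i : ℕ) : Set (E × I) :=
  {z | ENNReal.ofReal (z.2 : ℝ) ≤ sig g i z.1 / DD ρ g (i + 1)}

theorem meas_Acc (hg : Measurable g) (i : ℕ) : MeasurableSet (Acc ρ g i) := by
  unfold Acc
  refine measurableSet_le ?_ ?_
  · exact ENNReal.measurable_ofReal.comp (measurable_subtype_coe.comp measurable_snd)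
  · exact ((meas_sig hg i).comp measurable_fst).div_const _

theorem acc_mass (hg : Measurable g) (i : ℕ) {C : Set E} (hC : MeasurableSet C) :
    (ρ.prod (volume : Measure I)) (Acc ρ g i ∩ {z | z.1 ∈ C}) =
      (∫⁻ e in C, sig g i e ∂ρ) / DD ρ g (i + 1) := by
  have hm : MeasurableSet (Acc ρ g i ∩ {z : E × I | z.1 ∈ C}) :=
    (meas_Acc hg i).inter (measurable_fst hC)
  rw [Measure.prod_apply hm]
  have h1 : ∀ e : E, (volume : Measure I) (Prod.mk e ⁻¹' (Acc ρ g i ∩ {z : E × I | z.1 ∈ C})) =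
      C.indicator (fun e => sig g i e * (DD ρ g (i + 1))⁻¹) e := by
    intro e
    by_cases he : e ∈ C
    · rw [Set.indicator_of_mem he, ← div_eq_mul_inv]
      have h2 : Prod.mk e ⁻¹' (Acc ρ g i ∩ {z : E × I | z.1 ∈ C}) =
          {v : I | ENNReal.ofReal (v : ℝ) ≤ sig g i e / DD ρ g (i + 1)} := by
        ext v
        exact ⟨fun h => h.1, fun h => ⟨h, he⟩⟩
      rw [h2]
      refine vol_le ?_
      exact ENNReal.div_le_of_le_mul (by
        rw [one_mul]
        exact (sig_le_one g i e).trans (one_le_DD _))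
    · rw [Set.indicator_of_notMem he]
      have h2 : Prod.mk e ⁻¹' (Acc ρ g i ∩ {z : E × I | z.1 ∈ C}) = ∅ := by
        ext v
        exact ⟨fun h => he h.2, fun h => h.elim⟩
      rw [h2, measure_empty]
  simp_rw [h1]
  rw [lintegral_indicator hC, lintegral_mul_const _ (meas_sig hg i), div_eq_mul_inv]

theorem rej_mass (hg : Measurable g) (h1 : ∫⁻ e, g e ∂ρ = 1) (i : ℕ) :
    (ρ.prod (volume : Measure I)) (Acc ρ g i)ᶜ = DD ρ g i / DD ρ g (i + 1) := by
  have h2 := acc_mass (ρ := ρ) hg i MeasurableSet.univ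
  have h3 : (Acc ρ g i ∩ {z : E × I | z.1 ∈ (Set.univ : Set E)}) = Acc ρ g i := by
    ext z
    simp
  rw [h3, Measure.restrict_univ] at h2
  rw [prob_compl_eq_one_sub (meas_Acc hg i), h2]
  have h4 : (1 : ℝ≥0∞) = DD ρ g (i + 1) / DD ρ g (i + 1) :=
    (ENNReal.div_self (DD_ne_zero _) (DD_ne_top hg h1 _)).symm
  have h5 : DD ρ g i / DD ρ g (i + 1) + (∫⁻ e, sig g i e ∂ρ) / DD ρ g (i + 1) = 1 := by
    rw [← ENNReal.add_div]
    have h6 : DD ρ g i + ∫⁻ e, sig g i e ∂ρ = DD ρ g (i + 1) := (DD_succ i).symm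
    rw [h6]
    exact h4.symm
  rw [← h5]
  refine ENNReal.add_sub_cancel_right ?_
  refine ENNReal.div_ne_top ?_ (DD_ne_zero _)
  have h7 : ∫⁻ e, sig g i e ∂ρ ≤ DD ρ g (i + 1) := by
    rw [DD_succ]
    exact le_add_self
  exact ne_top_of_le_ne_top (DD_ne_top hg h1 _) h7

/-- the boxes -/
def Bx (ρ : Measure E) (g : E → ℝ≥0∞) (C : Set E) (i : ℕ) (j : ℕ) : Set (E × I) :=
  if j = i then Acc ρ g i ∩ {z | z.1 ∈ C} else (Acc ρ g j)ᶜ

theorem meas_Bx (hg : Measurable g) {C : Set E} (hC : MeasurableSet C) (i j : ℕ) :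
    MeasurableSet (Bx ρ g C i j) := by
  unfold Bx
  split_ifs
  · exact (meas_Acc hg i).inter (measurable_fst hC)
  · exact (meas_Acc hg j).compl

theorem box_mass (hg : Measurable g) (h1 : ∫⁻ e, g e ∂ρ = 1) {C : Set E} (hC : MeasurableSet C)
    (i k : ℕ) :
    (Measure.infinitePi fun _ : ℕ => ρ.prod (volume : Measure I))
      (Set.pi (Finset.Ico i (i + 1 + k) : Finset ℕ) (Bx ρ g C i)) =
      (∫⁻ e in C, sig g i e ∂ρ) / DD ρ g (i + 1 + k) := by
  rw [Measure.infinitePi_pi _ fun j _ => meas_Bx hg hC i j]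
  induction k with
  | zero =>
    rw [add_zero, Nat.Ico_succ_singleton, Finset.prod_singleton]
    unfold Bx
    rw [if_pos rfl]
    exact acc_mass hg i hC
  | succ k ih =>
    rw [← add_assoc, Finset.prod_Ico_succ_top (by omega), ih]
    have h2 : Bx ρ g C i (i + 1 + k) = (Acc ρ g (i + 1 + k))ᶜ := by
      unfold Bx
      rw [if_neg (by omega)]
    rw [h2, rej_mass hg h1]
    rw [div_eq_mul_inv, div_eq_mul_inv, div_eq_mul_inv, mul_assoc, ← mul_assoc (DD ρ g _)⁻¹,
      ENNReal.inv_mul_cancel (DD_ne_zero _) (DD_ne_top hg h1 _), one_mul]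

end

/-- JOB SEL1 -/
theorem sel1 : Q297.WT.S_SEL1 := by
  intro E _ ρ _ g hg h1
  refine ⟨fun i => {z | z i ∈ Acc ρ g i ∧ ∀ j, i < j → z j ∉ Acc ρ g j}, ?_, ?_, ?_⟩
  · intro i
    have h2 : {z : ℕ → E × I | z i ∈ Acc ρ g i ∧ ∀ j, i < j → z j ∉ Acc ρ g j} =
        (fun z => z i) ⁻¹' (Acc ρ g i) ∩ ⋂ j, ⋂ (_ : i < j), (fun z => z j) ⁻¹' (Acc ρ g j)ᶜ := by
      ext z
      simp
    change MeasurableSet {z : ℕ → E × I | z i ∈ Acc ρ g i ∧ ∀ j, i < j → z j ∉ Acc ρ g j}
    rw [h2]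
    refine (measurable_pi_apply i (meas_Acc hg i)).inter ?_
    exact MeasurableSet.iInter fun j => MeasurableSet.iInter fun _ =>
      measurable_pi_apply j (meas_Acc hg j).compl
  · have key : ∀ i j : ℕ, i < j → Disjoint
        {z : ℕ → E × I | z i ∈ Acc ρ g i ∧ ∀ j, i < j → z j ∉ Acc ρ g j}
        {z : ℕ → E × I | z j ∈ Acc ρ g j ∧ ∀ k, j < k → z k ∉ Acc ρ g k} := by
      intro i j hij
      rw [Set.disjoint_left]
      intro z hz hz'
      exact hz.2 j hij hz'.1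
    intro i j hij
    rcases lt_or_gt_of_ne hij with h | h
    · exact key i j h
    · exact (key j i h).symm
  · intro i C hC
    set Q : Measure (ℕ → E × I) := Measure.infinitePi fun _ : ℕ => ρ.prod (volume : Measure I) with hQ
    have hT : ({z : ℕ → E × I | z i ∈ Acc ρ g i ∧ ∀ j, i < j → z j ∉ Acc ρ g j} ∩
        {z | (z i).1 ∈ C}) = ⋂ k : ℕ, Set.pi (Finset.Ico i (i + 1 + k) : Finset ℕ) (Bx ρ g C i) := by
      ext z
      rw [Set.mem_iInter]
      constructor
      · rintro ⟨⟨ha, hb⟩, hc⟩ k j hj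
        rw [Finset.mem_coe, Finset.mem_Ico] at hj
        unfold Bx
        split_ifs with h
        · rw [h]
          exact ⟨ha, hc⟩
        · exact hb j (lt_of_le_of_ne hj.1 (Ne.symm h))
      · intro h
        have h2 := h 0 i (by
          rw [Finset.mem_coe, Finset.mem_Ico]
          omega)
        unfold Bx at h2
        rw [if_pos rfl] at h2
        refine ⟨⟨h2.1, fun j hj => ?_⟩, h2.2⟩
        have h3 := h (j - i) j (by
          rw [Finset.mem_coe, Finset.mem_Ico]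
          omega)
        unfold Bx at h3
        rw [if_neg (by omega)] at h3
        exact h3
    have hlim : Tendsto (fun k : ℕ => Q (Set.pi (Finset.Ico i (i + 1 + k) : Finset ℕ)
        (Bx ρ g C i))) atTop (𝓝 (Q (⋂ k : ℕ, Set.pi (Finset.Ico i (i + 1 + k) : Finset ℕ)
        (Bx ρ g C i)))) := by
      refine tendsto_measure_iInter_atTop ?_ ?_ ?_
      · intro k
        exact (MeasurableSet.pi (Finset.countable_toSet _) fun j _ =>
          meas_Bx hg hC i j).nullMeasurableSet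
      · intro k k' hk z hz j hj
        refine hz j ?_
        rw [Finset.mem_coe, Finset.mem_Ico] at hj ⊢
        omega
      · exact ⟨0, measure_ne_top _ _⟩
    have hlim2 : Tendsto (fun k : ℕ => Q (Set.pi (Finset.Ico i (i + 1 + k) : Finset ℕ)
        (Bx ρ g C i))) atTop (𝓝 ((∫⁻ e in C, sig g i e ∂ρ) / 4)) := by
      simp_rw [hQ, box_mass hg h1 hC]
      have h2 : Tendsto (fun k : ℕ => DD ρ g (i + 1 + k)) atTop (𝓝 4) :=
        (tendsto_DD hg h1).comp (tendsto_atTop_mono (fun k => Nat.le_add_left k (i + 1)) tendsto_id)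
      refine ENNReal.Tendsto.const_div h2 (Or.inl ?_)
      simp
    rw [hT]
    exact tendsto_nhds_unique hlim hlim2

end Pool.Agent.Q149.WT
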