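import Pool.Agent.Q297.WT.Stm

/-!
# Project WT (helper297), job SEL2: the selection theorem from one trial
-/

set_option autoImplicit false
set_option linter.unusedSectionVars false
set_option linter.deprecated false

namespace Pool.Agent.Q149.WT

open MeasureTheory ProbabilityTheory Set Filter Topology Finset
open scoped ENNReal NNReal unitInterval
open Q297.WT

/-! ### The bijection `(r, i) ↦ 2 ^ r (2 i + 1) - 1` -/

theorem ee_lt {r s i j : ℕ} (h : 2 ^ r * (2 * i + 1) = 2 ^ s * (2 * j + 1)) : ¬ r < s := by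
  intro hlt
  obtain ⟨k, rfl⟩ := Nat.exists_eq_add_of_lt hlt
  rw [pow_succ, pow_add, mul_assoc, mul_assoc] at h
  have h2 := Nat.eq_of_mul_eq_mul_left (pow_pos (by norm_num) r) h
  have h3 : 2 ^ k * (2 * (2 * j + 1)) = 2 * (2 ^ k * (2 * j + 1)) := by ring
  rw [h3] at h2
  omega

theorem ee_bij : Function.Bijective (fun p : ℕ × ℕ => 2 ^ p.1 * (2 * p.2 + 1) - 1) := by
  constructor
  · rintro ⟨r, i⟩ ⟨s, j⟩ h
    have h0 : 2 ^ r * (2 * i + 1) - 1 = 2 ^ s * (2 * j + 1) - 1 := h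
    have h1 : 0 < 2 ^ r * (2 * i + 1) := Nat.mul_pos (pow_pos (by norm_num) r) (by omega)
    have h2 : 0 < 2 ^ s * (2 * j + 1) := Nat.mul_pos (pow_pos (by norm_num) s) (by omega)
    have h3 : 2 ^ r * (2 * i + 1) = 2 ^ s * (2 * j + 1) := by omega
    have h4 : r = s := le_antisymm (not_lt.1 (ee_lt h3.symm)) (not_lt.1 (ee_lt h3))
    subst h4
    have h5 := Nat.eq_of_mul_eq_mul_left (pow_pos (by norm_num) r) h3
    have h6 : i = j := by omega
    rw [h6]
  · intro n
    obtain ⟨k, m, hm, hn⟩ := Nat.exists_eq_two_pow_mul_odd (Nat.succ_ne_zero n)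
    obtain ⟨i, rfl⟩ := hm
    refine ⟨(k, i), ?_⟩
    have h : 2 ^ k * (2 * i + 1) - 1 = n := by omega
    exact h

/-- the bijection -/
noncomputable def ee : ℕ × ℕ ≃ ℕ := Equiv.ofBijective _ ee_bij

theorem ee_le (r i : ℕ) : ee (r, i) ≤ 2 ^ r * (2 * i + 1) := Nat.sub_le _ _

/-! ### Sequences of trials -/

section
variable {E : Type} [MeasurableSpace E]

/-- the trials -/
noncomputable def Phi (X : Type) (z : ℕ → X) (r i : ℕ) : X := z (ee (r, i))

theorem map_Phi {X : Type} [MeasurableSpace X] (μ : Measure X) [IsProbabilityMeasure μ] :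
    (Measure.infinitePi fun _ : ℕ => μ).map (Phi X) =
      Measure.infinitePi fun _ : ℕ => Measure.infinitePi fun _ : ℕ => μ := by
  have h1 : (Measure.infinitePi fun _ : ℕ => μ).map
      (MeasurableEquiv.piCongrLeft (fun _ : ℕ × ℕ => X) ee.symm) =
      Measure.infinitePi fun _ : ℕ × ℕ => μ :=
    Measure.infinitePi_map_piCongrLeft (fun _ : ℕ × ℕ => μ) ee.symm
  have h2 := Measure.infinitePi_map_curry (fun _ _ : ℕ => μ)
  rw [← h2, ← h1, Measure.map_map (MeasurableEquiv.measurable _) (MeasurableEquiv.measurable _)]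
  congr 1
  funext z r i
  change z (ee (r, i)) = (MeasurableEquiv.piCongrLeft (fun _ : ℕ × ℕ => X) ee.symm) z (r, i)
  rw [MeasurableEquiv.coe_piCongrLeft]
  have h3 := Equiv.piCongrLeft_apply_apply (fun _ : ℕ × ℕ => X) ee.symm z (ee (r, i))
  rw [Equiv.symm_apply_apply] at h3
  exact h3.symm

theorem meas_Phi {X : Type} [MeasurableSpace X] : Measurable (Phi X) := by
  refine measurable_pi_lambda _ fun r => measurable_pi_lambda _ fun i => ?_
  exact measurable_pi_apply _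

end

/-! ### The series -/

theorem three_quarters : (1 : ℝ≥0∞) - 4⁻¹ = 3 * 4⁻¹ := by
  refine ENNReal.sub_eq_of_eq_add (by simp) ?_
  have h1 : (3 : ℝ≥0∞) * 4⁻¹ + 4⁻¹ = 4 * 4⁻¹ := by ring
  rw [h1, ENNReal.mul_inv_cancel (by simp) (by simp)]

theorem geom4 : ∑' r : ℕ, (4⁻¹ : ℝ≥0∞) ^ r = 4 * 3⁻¹ := by
  rw [ENNReal.tsum_geometric, three_quarters, ENNReal.mul_inv (Or.inl (by simp)) (Or.inl (by simp)),
    inv_inv, mul_comm]

theorem geom2 : ∑' r : ℕ, (2 : ℝ≥0∞) ^ r * 4⁻¹ ^ r = 2 := by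
  have h1 : ∀ r : ℕ, (2 : ℝ≥0∞) ^ r * 4⁻¹ ^ r = 2⁻¹ ^ r := by
    intro r
    rw [← mul_pow]
    congr 1
    have h4 : (4 : ℝ≥0∞) = 2 * 2 := by norm_num
    rw [h4, ENNReal.mul_inv (Or.inl (by simp)) (Or.inl (by simp)), ← mul_assoc,
      ENNReal.mul_inv_cancel (by simp) (by simp), one_mul]
  simp_rw [h1]
  rw [ENNReal.tsum_geometric, ENNReal.one_sub_inv_two, inv_inv]

/-! ### The layers -/

section
variable {E : Type} [MeasurableSpace E] {ρ : Measure E} [IsProbabilityMeasure ρ] {g : E → ℝ≥0∞}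

theorem layers_sum (y : ℝ≥0∞) (n : ℕ) : ∑ i ∈ Finset.range n, min (y - i) 1 = min y n := by
  induction n with
  | zero => simp
  | succ n ih =>
    rw [Finset.sum_range_succ, ih]
    rcases le_or_gt y n with h | h
    · rw [min_eq_left h, tsub_eq_zero_of_le h, min_eq_left (zero_le_one), add_zero, min_eq_left]
      refine h.trans ?_
      rw [Nat.cast_add]
      exact le_self_add
    · rw [min_eq_right h.le, ← min_add_add_left, add_tsub_cancel_of_le h.le, Nat.cast_add,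
        Nat.cast_one]

theorem layers_tsum (y : ℝ≥0∞) : ∑' i : ℕ, min (y - i) 1 = y := by
  rw [ENNReal.tsum_eq_iSup_nat]
  simp_rw [layers_sum]
  rw [← inf_iSup_eq (α := ℝ≥0∞) y (fun n : ℕ => (n : ℝ≥0∞)), ENNReal.iSup_natCast]
  exact min_eq_left le_top

theorem sig_tsum (g : E → ℝ≥0∞) (e : E) : ∑' i : ℕ, sig g i e = 3 * g e := layers_tsum (3 * g e)

theorem sig_meas (hg : Measurable g) (i : ℕ) : Measurable (sig g i) := by
  unfold sig
  exact (((measurable_const.mul hg).sub_const _).min measurable_const)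

theorem sig_int (hg : Measurable g) (C : Set E) :
    ∑' i : ℕ, ∫⁻ e in C, sig g i e ∂ρ = 3 * ∫⁻ e in C, g e ∂ρ := by
  rw [← lintegral_tsum fun i => (sig_meas hg i).aemeasurable]
  simp_rw [sig_tsum]
  rw [lintegral_const_mul _ hg]

theorem sig_weight (g : E → ℝ≥0∞) (i : ℕ) (e : E) :
    (2 * i + 1 : ℝ≥0∞) * sig g i e ≤ (6 * g e + 1) * sig g i e := by
  rcases le_or_gt (3 * g e) i with h | h
  · have h0 : sig g i e = 0 := by
      unfold sig
      rw [tsub_eq_zero_of_le h]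
      exact min_eq_left zero_le_one
    rw [h0, mul_zero, mul_zero]
  · have h2 : 2 * (i : ℝ≥0∞) ≤ 6 * g e := by
      calc 2 * (i : ℝ≥0∞) ≤ 2 * (3 * g e) := by gcongr
        _ = 6 * g e := by ring
    exact mul_le_mul' (add_le_add h2 le_rfl) le_rfl

theorem sig_moment (hg : Measurable g) (h1 : ∫⁻ e, g e ∂ρ = 1) (h2 : ∫⁻ e, g e ^ 2 ∂ρ < ∞) :
    ∑' i : ℕ, (2 * i + 1 : ℝ≥0∞) * ∫⁻ e, sig g i e ∂ρ < ∞ := by
  have h3 : ∀ i : ℕ, (2 * i + 1 : ℝ≥0∞) * ∫⁻ e, sig g i e ∂ρ ≤
      ∫⁻ e, (6 * g e + 1) * sig g i e ∂ρ := by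
    intro i
    rw [← lintegral_const_mul _ (sig_meas hg i)]
    exact lintegral_mono fun e => sig_weight g i e
  refine lt_of_le_of_lt (ENNReal.tsum_le_tsum h3) ?_
  rw [← lintegral_tsum (f := fun (i : ℕ) e => (6 * g e + 1) * sig g i e) fun i =>
    (((measurable_const.mul hg).add_const _).mul (sig_meas hg i)).aemeasurable]
  simp_rw [ENNReal.tsum_mul_left, sig_tsum]
  have h4 : ∀ e, (6 * g e + 1) * (3 * g e) = 18 * g e ^ 2 + 3 * g e := fun e => by ring
  simp_rw [h4]
  have hg3 : Measurable fun e => 3 * g e := measurable_const.mul hg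
  rw [lintegral_add_right _ hg3, lintegral_const_mul _ (hg.pow_const 2),
    lintegral_const_mul _ hg, h1, mul_one]
  exact ENNReal.add_lt_top.2 ⟨ENNReal.mul_lt_top (by simp) h2, by simp⟩

end

/-! ### The selection -/

section
variable {E : Type} [MeasurableSpace E]

/-- the trials before `r` fail and the trial `r` selects the index `i` -/
def GG (S : ℕ → Set (ℕ → E × I)) (r i : ℕ) : Set (ℕ → ℕ → E × I) :=
  {w | w r ∈ S i ∧ ∀ r' < r, w r' ∉ ⋃ j, S j}

theorem meas_GG {S : ℕ → Set (ℕ → E × I)} (hS : ∀ i, MeasurableSet (S i)) (r i : ℕ) :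
    MeasurableSet (GG S r i) := by
  have h2 : GG S r i = (fun w : ℕ → ℕ → E × I => w r) ⁻¹' (S i) ∩
      ⋂ r', ⋂ (_ : r' < r), (fun w : ℕ → ℕ → E × I => w r') ⁻¹' (⋃ j, S j)ᶜ := by
    ext w
    simp [GG]
  rw [h2]
  refine (measurable_pi_apply r (hS i)).inter ?_
  exact MeasurableSet.iInter fun j => MeasurableSet.iInter fun _ =>
    measurable_pi_apply j (MeasurableSet.iUnion hS).compl

theorem GG_eq {S : ℕ → Set (ℕ → E × I)} (hd : Pairwise (Function.onFun Disjoint S)) {r i r' i' : ℕ}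
    {w : ℕ → ℕ → E × I} (h : w ∈ GG S r i) (h' : w ∈ GG S r' i') : r = r' ∧ i = i' := by
  have h1 : r = r' := by
    rcases lt_trichotomy r r' with hlt | heq | hlt
    · exact absurd (Set.mem_iUnion.2 ⟨i, h.1⟩) (h'.2 r hlt)
    · exact heq
    · exact absurd (Set.mem_iUnion.2 ⟨i', h'.1⟩) (h.2 r' hlt)
  subst h1
  refine ⟨rfl, ?_⟩
  by_contra hne
  exact Set.disjoint_left.1 (hd hne) h.1 h'.1

theorem GG_mass {ρ : Measure E} [IsProbabilityMeasure ρ] {g : E → ℝ≥0∞}
    (hg : Measurable g) (h1 : ∫⁻ e, g e ∂ρ = 1)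
    {S : ℕ → Set (ℕ → E × I)} (hS : ∀ i, MeasurableSet (S i))
    (hd : Pairwise (Function.onFun Disjoint S))
    (hm : ∀ (i : ℕ) (C : Set E), MeasurableSet C →
        (Measure.infinitePi fun _ : ℕ => ρ.prod (volume : Measure I)) (S i ∩ {z | (z i).1 ∈ C}) =
          (∫⁻ e in C, sig g i e ∂ρ) / 4) (r i : ℕ) {C : Set E} (hC : MeasurableSet C) :
    (Measure.infinitePi fun _ : ℕ => Measure.infinitePi fun _ : ℕ => ρ.prod (volume : Measure I))
      (GG S r i ∩ {w | (w r i).1 ∈ C}) = 4⁻¹ ^ r * ((∫⁻ e in C, sig g i e ∂ρ) * 4⁻¹) := by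
  have hS1 : ∀ i, (Measure.infinitePi fun _ : ℕ => ρ.prod (volume : Measure I)) (S i) =
      (∫⁻ e, sig g i e ∂ρ) * 4⁻¹ := by
    intro i
    have h2 := hm i Set.univ MeasurableSet.univ
    have h3 : (S i ∩ {z : ℕ → E × I | (z i).1 ∈ (Set.univ : Set E)}) = S i := by
      ext z
      simp
    rw [h3, Measure.restrict_univ, div_eq_mul_inv] at h2
    exact h2
  have hF : (Measure.infinitePi fun _ : ℕ => ρ.prod (volume : Measure I)) (⋃ j, S j)ᶜ = 4⁻¹ := by
    rw [prob_compl_eq_one_sub (MeasurableSet.iUnion hS), measure_iUnion hd hS]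
    simp_rw [hS1]
    rw [ENNReal.tsum_mul_right]
    have h4 := sig_int (ρ := ρ) hg Set.univ
    simp_rw [Measure.restrict_univ] at h4
    rw [h4, h1, mul_one]
    refine ENNReal.sub_eq_of_eq_add (ENNReal.mul_ne_top (by simp) (by simp)) ?_
    have h5 : (4⁻¹ : ℝ≥0∞) + 3 * 4⁻¹ = 4 * 4⁻¹ := by ring
    rw [h5, ENNReal.mul_inv_cancel (by simp) (by simp)]
  let t : ℕ → Set (ℕ → E × I) := fun j =>
    if j = r then S i ∩ {z | (z i).1 ∈ C} else (⋃ j, S j)ᶜ
  have ht : ∀ j, MeasurableSet (t j) := by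
    intro j
    simp only [t]
    split_ifs
    · exact (hS i).inter (measurable_fst.comp (measurable_pi_apply i) hC)
    · exact (MeasurableSet.iUnion hS).compl
  have hset : GG S r i ∩ {w | (w r i).1 ∈ C} = Set.pi (Finset.range (r + 1) : Finset ℕ) t := by
    ext w
    constructor
    · rintro ⟨⟨ha, hb⟩, hc⟩ j hj
      rw [Finset.mem_coe, Finset.mem_range] at hj
      simp only [t]
      split_ifs with h
      · rw [h]
        exact ⟨ha, hc⟩
      · exact hb j (by omega)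
    · intro h
      have h2 := h r (by
        rw [Finset.mem_coe, Finset.mem_range]
        omega)
      simp only [t] at h2
      rw [if_pos trivial] at h2
      refine ⟨⟨h2.1, fun j hj => ?_⟩, h2.2⟩
      have h3 := h j (by
        rw [Finset.mem_coe, Finset.mem_range]
        omega)
      simp only [t] at h3
      rw [if_neg (by omega)] at h3
      exact h3
  rw [hset, Measure.infinitePi_pi _ fun j _ => ht j, Finset.prod_range_succ]
  congr 1
  · have h6 : ∀ j ∈ Finset.range r,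
        (Measure.infinitePi fun _ : ℕ => ρ.prod (volume : Measure I)) (t j) = 4⁻¹ := by
      intro j hj
      rw [Finset.mem_range] at hj
      simp only [t]
      rw [if_neg (by omega), hF]
    rw [Finset.prod_congr rfl h6, Finset.prod_const, Finset.card_range]
  · simp only [t]
    rw [if_pos trivial, hm i C hC, div_eq_mul_inv]

/-- the events, numbered -/
def HH (S : ℕ → Set (ℕ → E × I)) (n : ℕ) : Set (ℕ → E × I) :=
  Phi (E × I) ⁻¹' GG S (ee.symm n).1 (ee.symm n).2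

/-- the selected index -/
noncomputable def NN (S : ℕ → Set (ℕ → E × I)) (z : ℕ → E × I) : ℕ := sInf {n | z ∈ HH S n}

theorem HH_eq {S : ℕ → Set (ℕ → E × I)} (hd : Pairwise (Function.onFun Disjoint S)) {n n' : ℕ}
    {z : ℕ → E × I} (h : z ∈ HH S n) (h' : z ∈ HH S n') : n = n' := by
  obtain ⟨h1, h2⟩ := GG_eq hd h h'
  exact ee.symm.injective (Prod.ext h1 h2)

theorem NN_of_mem {S : ℕ → Set (ℕ → E × I)} (hd : Pairwise (Function.onFun Disjoint S)) {n : ℕ}
    {z : ℕ → E × I} (h : z ∈ HH S n) : NN S z = n := by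
  have h1 : {n | z ∈ HH S n} = {n} := by
    ext m
    exact ⟨fun h' => HH_eq hd h' h, fun h' => by
      rw [Set.mem_singleton_iff] at h'
      rw [h']
      exact h⟩
  unfold NN
  rw [h1]
  exact csInf_singleton n

theorem NN_of_notMem {S : ℕ → Set (ℕ → E × I)} {z : ℕ → E × I} (h : ∀ n, z ∉ HH S n) :
    NN S z = 0 := by
  have h1 : {n | z ∈ HH S n} = ∅ := by
    ext m
    exact ⟨fun h' => h m h', fun h' => h'.elim⟩
  unfold NN
  rw [h1]
  exact Nat.sInf_empty

theorem meas_HH {S : ℕ → Set (ℕ → E × I)} (hS : ∀ i, MeasurableSet (S i)) (n : ℕ) :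
    MeasurableSet (HH S n) := meas_Phi (meas_GG hS _ _)

theorem meas_NN {S : ℕ → Set (ℕ → E × I)} (hS : ∀ i, MeasurableSet (S i))
    (hd : Pairwise (Function.onFun Disjoint S)) : Measurable (NN S) := by
  refine measurable_to_countable' fun n => ?_
  have h1 : NN S ⁻¹' {n} = HH S n ∪ (if n = 0 then (⋃ m, HH S m)ᶜ else ∅) := by
    ext z
    by_cases hz : ∃ m, z ∈ HH S m
    · obtain ⟨m, hm⟩ := hz
      have h2 := NN_of_mem hd hm
      constructor
      · intro h3
        have h4 : NN S z = n := h3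
        left
        rw [← h4, h2]
        exact hm
      · rintro (h3 | h3)
        · exact NN_of_mem hd h3
        · split_ifs at h3
          · exact absurd (Set.mem_iUnion.2 ⟨m, hm⟩) h3
          · exact h3.elim
    · have hz' : ∀ m, z ∉ HH S m := fun m hm => hz ⟨m, hm⟩
      have h2 := NN_of_notMem hz'
      constructor
      · intro h3
        have h4 : NN S z = n := h3
        right
        rw [if_pos (h4.symm.trans h2)]
        intro h5
        obtain ⟨m, hm⟩ := Set.mem_iUnion.1 h5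
        exact hz' m hm
      · rintro (h3 | h3)
        · exact absurd h3 (hz' n)
        · split_ifs at h3 with h5
          · exact h2.trans h5.symm
          · exact h3.elim
  rw [h1]
  refine (meas_HH hS n).union ?_
  split_ifs
  · exact (MeasurableSet.iUnion fun m => meas_HH hS m).compl
  · exact MeasurableSet.empty

end

/-- JOB SEL2 -/
theorem sel2 : Q297.WT.S_SEL2 := by
  intro hSEL1 E _ ρ _ g hg h1 h2
  obtain ⟨S, hS, hd, hm⟩ := hSEL1 E ρ g hg h1
  set Q : Measure (ℕ → E × I) := Measure.infinitePi fun _ : ℕ => ρ.prod (volume : Measure I) with hQ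
  -- the masses of the events
  have mass : ∀ (n : ℕ) (C : Set E), MeasurableSet C → Q (HH S n ∩ {z | (z n).1 ∈ C}) =
      4⁻¹ ^ (ee.symm n).1 * ((∫⁻ e in C, sig g (ee.symm n).2 e ∂ρ) * 4⁻¹) := by
    intro n C hC
    rw [← GG_mass hg h1 hS hd hm (ee.symm n).1 (ee.symm n).2 hC,
      ← map_Phi (ρ.prod (volume : Measure I)), Measure.map_apply meas_Phi]
    · congr 1
      ext z
      have h3 : Phi (E × I) z (ee.symm n).1 (ee.symm n).2 = z n := by
        unfold Phi
        rw [Prod.mk.eta, Equiv.apply_symm_apply]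
      constructor
      · rintro ⟨ha, hb⟩
        refine ⟨ha, ?_⟩
        change (Phi (E × I) z (ee.symm n).1 (ee.symm n).2).1 ∈ C
        rw [h3]
        exact hb
      · rintro ⟨ha, hb⟩
        refine ⟨ha, ?_⟩
        change (Phi (E × I) z (ee.symm n).1 (ee.symm n).2).1 ∈ C at hb
        rw [h3] at hb
        exact hb
    · exact (meas_GG hS _ _).inter
        (measurable_fst.comp ((measurable_pi_apply _).comp (measurable_pi_apply _)) hC)
  have massU : ∀ n : ℕ, Q (HH S n) =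
      4⁻¹ ^ (ee.symm n).1 * ((∫⁻ e, sig g (ee.symm n).2 e ∂ρ) * 4⁻¹) := by
    intro n
    have h3 := mass n Set.univ MeasurableSet.univ
    have h4 : (HH S n ∩ {z : ℕ → E × I | (z n).1 ∈ (Set.univ : Set E)}) = HH S n := by
      ext z
      simp
    rw [h4, Measure.restrict_univ] at h3
    exact h3
  have total : ∀ C : Set E, MeasurableSet C →
      ∑' n : ℕ, Q (HH S n ∩ {z | (z n).1 ∈ C}) = ∫⁻ e in C, g e ∂ρ := by
    intro C hC
    simp_rw [mass _ C hC]
    rw [Equiv.tsum_eq ee.symm (fun p : ℕ × ℕ => (4⁻¹ : ℝ≥0∞) ^ p.1 *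
      ((∫⁻ e in C, sig g p.2 e ∂ρ) * 4⁻¹)),
      ENNReal.tsum_prod (f := fun (r i : ℕ) => (4⁻¹ : ℝ≥0∞) ^ r * ((∫⁻ e in C, sig g i e ∂ρ) * 4⁻¹))]
    simp_rw [ENNReal.tsum_mul_left, ENNReal.tsum_mul_right]
    rw [sig_int hg, geom4]
    have h3 : (4 : ℝ≥0∞) * 3⁻¹ * (3 * (∫⁻ e in C, g e ∂ρ) * 4⁻¹) =
        (4 * 4⁻¹) * (3 * 3⁻¹) * ∫⁻ e in C, g e ∂ρ := by ring
    rw [h3, ENNReal.mul_inv_cancel (by simp) (by simp), ENNReal.mul_inv_cancel (by simp) (by simp),
      one_mul, one_mul]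
  have hdH : Pairwise (Function.onFun Disjoint (HH S)) := by
    intro n n' hne
    change Disjoint (HH S n) (HH S n')
    rw [Set.disjoint_left]
    intro z hz hz'
    exact hne (HH_eq hd hz hz')
  have full : Q (⋃ n, HH S n)ᶜ = 0 := by
    rw [prob_compl_eq_one_sub (MeasurableSet.iUnion fun n => meas_HH hS n),
      measure_iUnion hdH fun n => meas_HH hS n]
    have h3 := total Set.univ MeasurableSet.univ
    rw [Measure.restrict_univ, h1] at h3
    have h4 : ∀ n, Q (HH S n ∩ {z : ℕ → E × I | (z n).1 ∈ (Set.univ : Set E)}) = Q (HH S n) := by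
      intro n
      congr 1
      ext z
      simp
    simp_rw [h4] at h3
    rw [h3, tsub_self]
  refine ⟨NN S, meas_NN hS hd, ?_, ?_⟩
  · have h3 : ∀ z : ℕ → E × I, ((NN S z : ℕ) : ℝ≥0∞) =
        ∑' n : ℕ, (HH S n).indicator (fun _ => (n : ℝ≥0∞)) z := by
      intro z
      by_cases hz : ∃ m, z ∈ HH S m
      · obtain ⟨m, hm⟩ := hz
        rw [NN_of_mem hd hm, tsum_eq_single m, Set.indicator_of_mem hm]
        intro n hn
        exact Set.indicator_of_notMem (fun h => hn (HH_eq hd h hm)) _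
      · have hz' : ∀ m, z ∉ HH S m := fun m hm => hz ⟨m, hm⟩
        rw [NN_of_notMem hz', Nat.cast_zero]
        symm
        rw [ENNReal.tsum_eq_zero]
        intro n
        exact Set.indicator_of_notMem (hz' n) _
    simp_rw [h3]
    rw [lintegral_tsum fun n => (measurable_const.indicator (meas_HH hS n)).aemeasurable]
    simp_rw [lintegral_indicator (meas_HH hS _), lintegral_const, Measure.restrict_apply_univ, massU]
    have h4 : ∀ n : ℕ, (n : ℝ≥0∞) * (4⁻¹ ^ (ee.symm n).1 *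
        ((∫⁻ e, sig g (ee.symm n).2 e ∂ρ) * 4⁻¹)) ≤
        (fun p : ℕ × ℕ => (2 : ℝ≥0∞) ^ p.1 * 4⁻¹ ^ p.1 *
          (((2 * p.2 + 1 : ℝ≥0∞) * ∫⁻ e, sig g p.2 e ∂ρ) * 4⁻¹)) (ee.symm n) := by
      intro n
      have h5 : (n : ℝ≥0∞) ≤ 2 ^ (ee.symm n).1 * (2 * (ee.symm n).2 + 1) := by
        have h6 := ee_le (ee.symm n).1 (ee.symm n).2
        rw [Prod.mk.eta, Equiv.apply_symm_apply] at h6
        exact_mod_cast h6
      calc (n : ℝ≥0∞) * (4⁻¹ ^ (ee.symm n).1 * ((∫⁻ e, sig g (ee.symm n).2 e ∂ρ) * 4⁻¹))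
          ≤ (2 ^ (ee.symm n).1 * (2 * (ee.symm n).2 + 1)) *
            (4⁻¹ ^ (ee.symm n).1 * ((∫⁻ e, sig g (ee.symm n).2 e ∂ρ) * 4⁻¹)) := by gcongr
        _ = _ := by ring
    refine lt_of_le_of_lt (ENNReal.tsum_le_tsum h4) ?_
    rw [Equiv.tsum_eq ee.symm (fun p : ℕ × ℕ => (2 : ℝ≥0∞) ^ p.1 * 4⁻¹ ^ p.1 *
          (((2 * p.2 + 1 : ℝ≥0∞) * ∫⁻ e, sig g p.2 e ∂ρ) * 4⁻¹)),
      ENNReal.tsum_prod (f := fun (r i : ℕ) => (2 : ℝ≥0∞) ^ r * 4⁻¹ ^ r *
          (((2 * i + 1 : ℝ≥0∞) * ∫⁻ e, sig g i e ∂ρ) * 4⁻¹))]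
    simp_rw [ENNReal.tsum_mul_left, ENNReal.tsum_mul_right]
    rw [geom2]
    exact ENNReal.mul_lt_top (by simp) (ENNReal.mul_lt_top (sig_moment hg h1 h2) (by simp))
  · intro C hC
    rw [← total C hC]
    have hdC : Pairwise (Function.onFun Disjoint
        (fun n => HH S n ∩ {z : ℕ → E × I | (z n).1 ∈ C})) := by
      intro n n' hne
      exact (hdH hne).mono Set.inter_subset_left Set.inter_subset_left
    have hmC : ∀ n, MeasurableSet (HH S n ∩ {z : ℕ → E × I | (z n).1 ∈ C}) := fun n =>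
      (meas_HH hS n).inter (measurable_fst.comp (measurable_pi_apply n) hC)
    rw [← measure_iUnion hdC hmC]
    refine measure_congr ?_
    have hae : ∀ᵐ z ∂Q, z ∈ ⋃ n, HH S n := by
      rw [ae_iff]
      exact full
    filter_upwards [hae] with z hz
    obtain ⟨n, hn⟩ := Set.mem_iUnion.1 hz
    have h5 : NN S z = n := NN_of_mem hd hn
    refine propext ?_
    constructor
    · intro h6
      have h7 : (z (NN S z)).1 ∈ C := h6
      rw [h5] at h7
      exact Set.mem_iUnion.2 ⟨n, hn, h7⟩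
    · intro h6
      obtain ⟨m, hm1, hm2⟩ := Set.mem_iUnion.1 h6
      change (z (NN S z)).1 ∈ C
      rw [NN_of_mem hd hm1]
      exact hm2

end Pool.Agent.Q149.WT
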